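import Mathlib
import Pool.Agent.V11310.Auto

namespace Pool.Agent.Results.MP_c55a01_nt.SignNotAutomatic

open Pool.Agent.V11310.Auto

/-- The recurrence `r_0 = 0`, `r_1 = 1`, `r_n = a_n r_{n-1} + r_{n-2}`. -/
def r (a : ℕ → ℤ) : ℕ → ℤ
  | 0 => 0
  | 1 => 1
  | n + 2 => a (n + 2) * r a (n + 1) + r a n

/-- state of the automaton -/
def st (n : ℕ) : Fin 5 :=
  if n = 0 then 0
  else if n = 1 then 1
  else if n = 2 ^ n.log2 then 2
  else if 2 * n < 3 * 2 ^ n.log2 then 3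
  else 4

/-- the automatic sequence -/
def a (n : ℕ) : ℤ := if n % 2 = 1 then 0 else if st n = 3 then 1 else if st n = 4 then -1 else 0

/-- transition -/
def δ (q : Fin 5) (b : ℕ) : Fin 5 :=
  if q = 0 then (if b = 0 then 0 else 1)
  else if q = 1 then (if b = 0 then 2 else 4)
  else if q = 2 then (if b = 0 then 2 else 3)
  else q

lemma log2_spec {n : ℕ} (hn : n ≠ 0) : 2 ^ n.log2 ≤ n ∧ n < 2 * 2 ^ n.log2 := by
  refine ⟨Nat.log2_self_le hn, ?_⟩
  have := Nat.lt_log2_self (n := n)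
  rw [pow_succ'] at this
  exact this

lemma log2_double {n b : ℕ} (hn : n ≠ 0) (hb : b < 2) : (2 * n + b).log2 = n.log2 + 1 := by
  rw [Nat.log2_eq_iff (by omega)]
  have := log2_spec hn
  rw [pow_succ', pow_succ']
  omega

lemma st_step (n b : ℕ) (hb : b < 2) : st (2 * n + b) = δ (st n) b := by
  rcases Nat.eq_zero_or_pos n with rfl | hn
  · interval_cases b <;> decide
  rcases Nat.eq_or_lt_of_le (show 1 ≤ n from hn) with h1 | h1
  · subst h1
    interval_cases b <;> decide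
  have hl := log2_double (n := n) (b := b) (by omega) hb
  have hs := log2_spec (n := n) (by omega)
  have hL : 1 ≤ n.log2 := by
    by_contra hcon
    have : n.log2 = 0 := by omega
    rw [this] at hs
    omega
  obtain ⟨h, hh⟩ : ∃ h, 2 ^ n.log2 = 2 * h := ⟨2 ^ (n.log2 - 1), by
    rw [← pow_succ']; congr 1; omega⟩
  unfold st δ
  rw [hl, pow_succ', hh]
  rw [hh] at hs
  have e0 : ¬ (2 * n + b = 0) := by omega
  have e1 : ¬ (2 * n + b = 1) := by omega
  have e2 : ¬ (n = 0) := by omega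
  have e3 : ¬ (n = 1) := by omega
  simp only [e0, e1, e2, e3, if_false]
  by_cases c1 : n = 2 * h
  · by_cases c2 : b = 0
    · have d1 : 2 * n + b = 2 * (2 * h) := by omega
      simp [c1, c2]
    · have d4 : 2 * (2 * (2 * h) + b) < 3 * (2 * (2 * h)) := by omega
      simp [c1, c2, d4]
  · have d1 : ¬ (2 * n + b = 2 * (2 * h)) := by omega
    by_cases c2 : 2 * n < 3 * (2 * h)
    · have d2 : 2 * (2 * n + b) < 3 * (2 * (2 * h)) := by omega
      simp [c1, d1, c2, d2]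
    · have d2 : ¬ (2 * (2 * n + b) < 3 * (2 * (2 * h))) := by omega
      simp [c1, d1, c2, d2]

lemma a_automatic : IsAutomatic 2 a := by
  constructor
  · apply (Set.finite_range (fun q : Bool × Fin 5 =>
      (if q.1 then 0 else if q.2 = 3 then 1 else if q.2 = 4 then -1 else 0 : ℤ))).subset
    rintro _ ⟨n, rfl⟩
    refine ⟨(decide (n % 2 = 1), st n), ?_⟩
    simp [a]
  · have h := finite_kernel_of_dfao (k := 2) (by norm_num)
      (fun n => ((st n, (⟨n % 2, Nat.mod_lt _ (by norm_num)⟩ : Fin 2)) : Fin 5 × Fin 2))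
      (fun q b => (δ q.1 b, (⟨b % 2, Nat.mod_lt _ (by norm_num)⟩ : Fin 2)))
      (by
        intro n b hb
        simp only [st_step n b hb, Prod.mk.injEq, Fin.mk.injEq, true_and]
        omega)
      (fun q => (if q.2 = 1 then 0 else if q.1 = 3 then 1 else if q.1 = 4 then -1 else 0 : ℤ))
    convert h using 2
    funext n
    unfold a
    have : ((⟨n % 2, Nat.mod_lt _ (by norm_num)⟩ : Fin 2) = 1) ↔ n % 2 = 1 := by
      rw [Fin.ext_iff]; simp
    simp only [this]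

lemma r_odd (n : ℕ) : r a (2 * n + 1) = 1 := by
  induction n with
  | zero => rfl
  | succ n ih =>
    show a (2 * n + 1 + 2) * r a (2 * n + 1 + 1) + r a (2 * n + 1) = 1
    have : a (2 * n + 1 + 2) = 0 := by
      unfold a
      rw [if_pos (by omega)]
    rw [this, ih]; ring

lemma r_even (n : ℕ) : r a (2 * (n + 1)) = r a (2 * n) + a (2 * (n + 1)) := by
  show a (2 * n + 2) * r a (2 * n + 1) + r a (2 * n) = _
  rw [r_odd, mul_one, add_comm]
  rfl

lemma log2_of {k x : ℕ} (h1 : 2 ^ k ≤ x) (h2 : x < 2 ^ (k + 1)) : x.log2 = k := by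
  have : 0 < 2 ^ k := Nat.two_pow_pos k
  rw [Nat.log2_eq_iff (by omega)]
  exact ⟨h1, h2⟩

lemma a_of_two {n : ℕ} (hn : n % 2 = 0) (h : st n = 2) : a n = 0 := by
  unfold a
  rw [if_neg (by omega), h]
  simp

lemma a_of_three {n : ℕ} (hn : n % 2 = 0) (h : st n = 3) : a n = 1 := by
  unfold a
  rw [if_neg (by omega), h]
  simp

lemma a_of_four {n : ℕ} (hn : n % 2 = 0) (h : st n = 4) : a n = -1 := by
  unfold a
  rw [if_neg (by omega), h]
  simp

lemma a_pow (k : ℕ) : a (2 * 2 ^ k) = 0 := by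
  apply a_of_two (by omega)
  have hpos : 0 < 2 ^ k := Nat.two_pow_pos k
  have hl : (2 * 2 ^ k).log2 = k + 1 :=
    log2_of (by rw [pow_succ']) (by rw [pow_succ', pow_succ']; omega)
  unfold st
  rw [hl, pow_succ', if_neg (by omega), if_neg (by omega), if_pos rfl]

lemma a_low {k i : ℕ} (hi0 : 0 < i) (hi : i < 2 ^ k) : a (2 * (2 ^ (k + 1) + i)) = 1 := by
  apply a_of_three (by omega)
  have hpos : 0 < 2 ^ k := Nat.two_pow_pos k
  have hl : (2 * (2 ^ (k + 1) + i)).log2 = k + 2 :=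
    log2_of (by rw [pow_succ', pow_succ']; omega) (by rw [pow_succ', pow_succ', pow_succ']; omega)
  unfold st
  rw [hl, pow_succ', pow_succ', if_neg (by omega), if_neg (by omega), if_neg (by omega),
    if_pos (by omega)]

lemma a_high {k i : ℕ} (hi : i < 2 ^ k) : a (2 * (3 * 2 ^ k + i)) = -1 := by
  apply a_of_four (by omega)
  have hpos : 0 < 2 ^ k := Nat.two_pow_pos k
  have hl : (2 * (3 * 2 ^ k + i)).log2 = k + 2 :=
    log2_of (by rw [pow_succ', pow_succ']; omega) (by rw [pow_succ', pow_succ', pow_succ']; omega)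
  unfold st
  rw [hl, pow_succ', pow_succ', if_neg (by omega), if_neg (by omega), if_neg (by omega),
    if_neg (by omega)]

lemma s_low_of (k : ℕ) (h0 : r a (2 * 2 ^ (k + 1)) = -k) :
    ∀ i, i < 2 ^ k → r a (2 * (2 ^ (k + 1) + i)) = i - k := by
  intro i
  induction i with
  | zero => intro _; simp [h0]
  | succ i ih =>
    intro hi
    rw [← add_assoc, r_even, ih (by omega), add_assoc, a_low (by omega) hi]
    push_cast; ring

lemma s_high_of (k : ℕ) (h0 : r a (2 * 2 ^ (k + 1)) = -k) :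
    ∀ i, i < 2 ^ k → r a (2 * (3 * 2 ^ k + i)) = 2 ^ k - k - 2 - i := by
  have hpos : 0 < 2 ^ k := Nat.two_pow_pos k
  intro i
  induction i with
  | zero =>
    intro _
    obtain ⟨l, hl⟩ : ∃ l, 3 * 2 ^ k = l + 1 := ⟨3 * 2 ^ k - 1, by omega⟩
    have h1 : a (2 * (l + 1)) = -1 := by
      rw [← hl]
      have := a_high (k := k) (i := 0) hpos
      simpa using this
    have h2 := s_low_of k h0 (2 ^ k - 1) (by omega)
    rw [add_zero, hl, r_even, h1, show l = 2 ^ (k + 1) + (2 ^ k - 1) by rw [pow_succ']; omega, h2]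
    push_cast [Nat.cast_sub (show 1 ≤ 2 ^ k from hpos)]
    ring
  | succ i ih =>
    intro hi
    rw [← add_assoc, r_even, ih (by omega), add_assoc, a_high hi]
    push_cast; ring

lemma s_pow (k : ℕ) : r a (2 * 2 ^ (k + 1)) = -k := by
  induction k with
  | zero => decide
  | succ k ih =>
    have hpos : 0 < 2 ^ k := Nat.two_pow_pos k
    have h2 := s_high_of k ih (2 ^ k - 1) (by omega)
    obtain ⟨l, hl⟩ : ∃ l, 2 ^ (k + 1 + 1) = l + 1 := ⟨2 ^ (k + 1 + 1) - 1, by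
      have := Nat.two_pow_pos (k + 1 + 1); omega⟩
    have h1 : a (2 * (l + 1)) = 0 := by rw [← hl]; exact a_pow _
    rw [hl, r_even, h1, show l = 3 * 2 ^ k + (2 ^ k - 1) by
      rw [pow_succ', pow_succ'] at hl; omega, h2]
    push_cast [Nat.cast_sub (show 1 ≤ 2 ^ k from hpos)]
    ring

/-- zeros of `r`. -/
lemma zero_iff {n : ℕ} (hn : 4 ≤ n) (h : r a n = 0) :
    ∃ κ : ℕ, (n : ℤ) = 2 * (2 ^ (κ + 1) + κ) ∨ (n : ℤ) = 2 * (2 ^ (κ + 2) - κ - 2) := by
  rcases Nat.even_or_odd' n with ⟨m, rfl | rfl⟩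
  · have hm : m ≠ 0 := by omega
    have hs := log2_spec hm
    obtain ⟨k, hk⟩ : ∃ k, m.log2 = k + 1 := by
      refine ⟨m.log2 - 1, ?_⟩
      have : m.log2 ≠ 0 := by
        intro h0
        rw [h0] at hs
        omega
      omega
    rw [hk] at hs
    have hp := pow_succ' 2 k
    by_cases hlow : m < 3 * 2 ^ k
    · obtain ⟨i, hi⟩ := Nat.exists_eq_add_of_le hs.1
      have h3 := s_low_of k (s_pow k) i (by omega)
      rw [← hi, h] at h3
      refine ⟨k, Or.inl ?_⟩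
      rw [hi]
      push_cast
      linarith
    · obtain ⟨i, hi⟩ := Nat.exists_eq_add_of_le (not_lt.1 hlow)
      have h3 := s_high_of k (s_pow k) i (by omega)
      rw [← hi, h] at h3
      refine ⟨k, Or.inr ?_⟩
      rw [hi]
      push_cast
      rw [show (2 : ℤ) ^ (k + 2) = 4 * 2 ^ k by ring]
      linarith
  · rw [r_odd] at h
    exact absurd h one_ne_zero

lemma zero_large (k : ℕ) : r a (2 * (2 ^ (k + 1) + k)) = 0 := by
  rw [s_low_of k (s_pow k) k Nat.lt_two_pow_self]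
  ring

lemma zero_form {n : ℕ} (hn : 4 ≤ n) (h : r a n = 0) :
    ∃ (l : ℕ) (ε : ℤ), 1 ≤ l ∧ (ε = l - 1 ∨ ε = -l) ∧ (n : ℤ) = 2 * 2 ^ l + 2 * ε := by
  obtain ⟨κ, h1 | h1⟩ := zero_iff hn h
  · refine ⟨κ + 1, κ, by omega, Or.inl (by push_cast; ring), ?_⟩
    rw [h1]; ring
  · refine ⟨κ + 2, -(κ + 2 : ℕ), by omega, Or.inr rfl, ?_⟩
    rw [h1]; push_cast; ring

lemma sq_le_two_pow {n : ℕ} (hn : 4 ≤ n) : n * n ≤ 2 ^ n := by
  induction n, hn using Nat.le_induction with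
  | base => norm_num
  | succ n hn ih => rw [pow_succ]; nlinarith

lemma two_mul_le_two_pow (n : ℕ) (hn : 1 ≤ n) : 2 * n ≤ 2 ^ n := by
  induction n, hn using Nat.le_induction with
  | base => norm_num
  | succ n hn ih => rw [pow_succ]; omega

/-- arithmetic contradiction -/
lemma contra {Q : ℕ} (hQ : 2 ≤ Q) {R : ℤ} {l μ : ℕ} {ε η : ℤ} (hl : 2 * Q + R.natAbs + 10 ≤ l)
    (hμ1 : 1 ≤ μ) (hε : ε = l - 1 ∨ ε = -l) (hη : η = μ - 1 ∨ η = -μ)
    (h : (2 * 2 ^ μ + 2 * η : ℤ) = Q * (2 * 2 ^ l + 2 * ε) + R) : False := by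
  have hR : |R| = R.natAbs := Int.abs_eq_natAbs R
  have hR1 := neg_abs_le R
  have hR2 := le_abs_self R
  set ρ : ℤ := |R| with hρ
  have hρ0 : 0 ≤ ρ := abs_nonneg R
  have hl' : 2 * (Q : ℤ) + ρ + 10 ≤ l := by
    rw [hR]; exact_mod_cast hl
  have hQ' : (2 : ℤ) ≤ Q := by exact_mod_cast hQ
  have hsq : (l : ℤ) * l ≤ 2 ^ l := by
    have := sq_le_two_pow (n := l) (by omega)
    exact_mod_cast this
  have hbig : (2 * (Q : ℤ) + ρ + 10) * l ≤ 2 ^ l := by nlinarith
  have hμ2 : 2 * (μ : ℤ) ≤ 2 ^ μ := by exact_mod_cast two_mul_le_two_pow μ hμ1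
  have hεa : -(l : ℤ) ≤ ε ∧ ε ≤ l := by rcases hε with h | h <;> omega
  have hηa : -(μ : ℤ) ≤ η ∧ η ≤ μ := by rcases hη with h | h <;> omega
  have hQε : (Q : ℤ) * ε ≤ Q * l ∧ -((Q : ℤ) * l) ≤ Q * ε := by
    constructor <;> nlinarith
  have hρl : ρ ≤ ρ * l := by nlinarith
  have hll : (1 : ℤ) ≤ l := by linarith
  have hp0 : (0 : ℤ) < 2 ^ l := by positivity
  -- upper bound for μ
  have h1 : (2 : ℤ) ^ μ ≤ (2 * Q + 2) * 2 ^ l := by
    have : (2 * (Q : ℤ) + ρ + 10) * l = 2 * (Q * l) + ρ * l + 10 * l := by ring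
    nlinarith
  have h2 : (2 : ℤ) ^ μ ≤ 2 ^ (2 * l) := by
    have : (2 : ℤ) ^ (2 * l) = 2 ^ l * 2 ^ l := by rw [two_mul, pow_add]
    rw [this]
    have h3 : 2 * (Q : ℤ) + 2 ≤ 2 ^ l := by nlinarith
    nlinarith
  have h3 : μ ≤ 2 * l := by
    have h2' : 2 ^ μ ≤ 2 ^ (2 * l) := by exact_mod_cast h2
    exact (Nat.pow_le_pow_iff_right (by norm_num)).1 h2'
  have h3' : (μ : ℤ) ≤ 2 * l := by exact_mod_cast h3
  -- D
  have hD : (2 : ℤ) * 2 ^ μ - 2 * (Q * 2 ^ l) = 2 * (Q * ε) + R - 2 * η := by linarith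
  have hD1 : (2 : ℤ) * 2 ^ μ - 2 * (Q * 2 ^ l) < 2 * 2 ^ l := by nlinarith
  have hD2 : -(2 * 2 ^ l) < (2 : ℤ) * 2 ^ μ - 2 * (Q * 2 ^ l) := by nlinarith
  have hμl : l ≤ μ := by
    by_contra hcon
    have : (2 : ℤ) ^ μ ≤ 2 ^ l := pow_le_pow_right₀ (by norm_num) (by omega)
    nlinarith
  obtain ⟨d, rfl⟩ := Nat.exists_eq_add_of_le hμl
  have hpd : (2 : ℤ) ^ (l + d) = 2 ^ l * 2 ^ d := pow_add _ _ _
  rw [hpd] at hD hD1 hD2
  have hQd : (2 : ℤ) ^ d = Q := by
    have e1 : (2 : ℤ) ^ d < Q + 1 := by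
      by_contra hcon
      push Not at hcon
      nlinarith
    have e2 : (Q : ℤ) < 2 ^ d + 1 := by
      by_contra hcon
      push Not at hcon
      nlinarith
    linarith
  have hdQ : (d : ℤ) < Q := by
    rw [← hQd]
    exact_mod_cast Nat.lt_two_pow_self
  rw [hQd] at hD
  have hD0 : 2 * ((Q : ℤ) * ε) + R - 2 * η = 0 := by rw [← hD]; ring
  push_cast at hη
  have hd0 : (0 : ℤ) ≤ d := by positivity
  have hQl : (2 : ℤ) * l ≤ Q * l := by nlinarith
  rcases hε with rfl | rfl <;> rcases hη with rfl | rfl <;> nlinarith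

/-- There is an integer valued `2`-automatic sequence `a` for which the sign sequence of
`r_n = a_n r_{n-1} + r_{n-2}` is not automatic. -/
theorem result : ∃ a : ℕ → ℤ, IsAutomatic 2 a ∧
    ∀ k : ℕ, 2 ≤ k → ¬ IsAutomatic k (fun n => Int.sign (r a n)) := by
  refine ⟨a, a_automatic, ?_⟩
  rintro k hk ⟨-, hker⟩
  have hker' : (kernel k (fun n => decide (Int.sign (r a n) = 0))).Finite :=
    (hker.image _).subset (kernel_comp k (fun n => Int.sign (r a n)) (fun x => decide (x = 0)))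
  obtain ⟨Q, R, z, hQ, hz, hf, hrec⟩ := pump hk _ hker' (by
    intro N
    refine ⟨2 * (2 ^ (N + 1) + N), by have := Nat.two_pow_pos (N + 1); omega, ?_⟩
    simp [zero_large])
  have hzero : ∀ m, r a (z m) = 0 := by
    intro m
    have := hf m
    simpa [Int.sign_eq_zero_iff_zero] using this
  set N := 2 * Q + R.natAbs + 10 with hN
  set m := 2 * 2 ^ N + 2 * N + 4 with hm
  have hzm : m ≤ z m := hz.le_apply
  have hzm1 : m + 1 ≤ z (m + 1) := hz.le_apply
  obtain ⟨l, ε, hl1, hε, e1⟩ := zero_form (by omega) (hzero m)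
  obtain ⟨μ, η, hμ1, hη, e2⟩ := zero_form (by omega) (hzero (m + 1))
  have hrec := hrec m
  rw [e1, e2] at hrec
  apply contra hQ (R := R) (l := l) (μ := μ) (ε := ε) (η := η) _ hμ1 hε hη hrec
  by_contra hcon
  push Not at hcon
  have h1 : (2 : ℤ) ^ l ≤ 2 ^ N := pow_le_pow_right₀ (by norm_num) (by omega)
  have h2 : (m : ℤ) ≤ z m := by exact_mod_cast hzm
  have h3 : (m : ℤ) = 2 * 2 ^ N + 2 * N + 4 := by rw [hm]; push_cast; ring
  have h4 : (l : ℤ) ≤ N := by exact_mod_cast (by omega : l ≤ N)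
  have h5 : (0 : ℤ) < 2 ^ N := by positivity
  rcases hε with h | h <;> nlinarith

end Pool.Agent.Results.MP_c55a01_nt.SignNotAutomatic
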